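import Mathlib
import Pool.Agent.X285.PA.Fld

/-!
# Base fields attached to a sequence of homomorphisms of the absolute Galois group
-/

set_option autoImplicit false

namespace Pool.Agent.X285.NC

open IntermediateField AlgEquiv
open Pool.Agent.X285.PA (prod_field inf_bot open_res)

variable {K Ω : Type} [Field K] [Field Ω] [Algebra K Ω] [IsGalois K Ω]

/-- The fields. -/
theorem fields_of {X : ℕ → Type} [∀ i, Group (X i)] (q : ∀ i, Gal(Ω/K) →* X i)
    (hq2 : ∀ i, IsOpen ((q i).ker : Set Gal(Ω/K)))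
    (M : IntermediateField K Ω) (hM : Pool.Agent.H451R6.FG M)
    (hq3 : ∀ τ : ∀ i, X i, ∃ σ ∈ M.fixingSubgroup, ∀ i, q i σ = τ i)
    (Q : ℕ → Type) [∀ i, Group (Q i)] (f : ∀ i, X i →* Q i)
    (hf : ∀ i, Function.Surjective (f i)) (G : ℕ → Type) [∀ i, Group (G i)]
    (g : ∀ i, (f i).ker →* G i) (hg : ∀ i, Function.Surjective (g i)) :
    ∃ (F : IntermediateField K Ω) (_ : IsGalois K F) (e : Gal(F/K) ≃* ∀ i, Q i),
      (∀ i, IsOpen {σ : Gal(F/K) | e σ i = 1}) ∧ F ⊓ M = ⊥ ∧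
      ∀ (J : Type) (s : J → ℕ), Function.Injective s → ∃ F' : IntermediateField F Ω,
        IsGalois F F' ∧ Nonempty ((∀ j, G (s j)) ≃* Gal(F'/F)) ∧
        ∀ x ∈ F', ∀ σ : Gal(Ω/K), (∀ i, q i σ = 1) → σ x = x := by
  classical
  have hρ : ∀ y : ∀ i, Q i, ∃ σ ∈ M.fixingSubgroup, ∀ i, (f i).comp (q i) σ = y i := by
    intro y
    choose w hw using fun i => hf i (y i)
    obtain ⟨σ, hσ1, hσ2⟩ := hq3 w
    refine ⟨σ, hσ1, fun i => ?_⟩
    rw [MonoidHom.comp_apply, hσ2, hw]
  obtain ⟨F, hF, e, he1, he2, he3⟩ := prod_field (fun i => (f i).comp (q i))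
    (fun y => by
      obtain ⟨σ, -, hσ⟩ := hρ y
      exact ⟨σ, hσ⟩)
    (fun i => Subgroup.isOpen_mono (fun σ hσ => by
      rw [MonoidHom.mem_ker] at hσ
      rw [MonoidHom.mem_ker, MonoidHom.comp_apply, hσ, map_one]) (hq2 i))
  refine ⟨F, hF, e, he3, inf_bot F M hM fun σ => ?_, fun J s hs => ?_⟩
  · obtain ⟨τ, hτ1, hτ2⟩ := hρ (fun i => (f i).comp (q i) σ)
    refine ⟨τ, hτ1, (he2 _).2 fun i => ?_⟩
    rw [map_mul, map_inv, hτ2, inv_mul_cancel]
  · have hmemF : ∀ σ : Gal(Ω/F), (restrictScalarsHom K σ : Gal(Ω/K)) ∈ F.fixingSubgroup := by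
      intro σ
      rw [IntermediateField.mem_fixingSubgroup_iff]
      intro x hx
      exact σ.commutes ⟨x, hx⟩
    let r : ∀ i, Gal(Ω/F) →* (f i).ker := fun i =>
      ((q i).comp (restrictScalarsHom K : Gal(Ω/F) →* Gal(Ω/K))).codRestrict (f i).ker
        (fun σ => (he2 _).1 (hmemF σ) i)
    have hro : ∀ i, IsOpen ((r i).ker : Set Gal(Ω/F)) := by
      intro i
      have h1 := open_res F (q i) (hq2 i) (MonoidHom.normal_ker _)
      refine Subgroup.isOpen_mono (fun σ hσ => ?_) h1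
      rw [MonoidHom.mem_ker] at hσ ⊢
      exact Subtype.ext hσ
    obtain ⟨F', hF', e', -, he'2, -⟩ := prod_field (k := F) (Ω := Ω) (A := fun j => G (s j))
      (fun j => (g (s j)).comp (r (s j)))
      (fun a => by
        have h1 : ∀ i, ∃ (t : X i) (ht : t ∈ (f i).ker),
            ∀ j (h : s j = i), g i ⟨t, ht⟩ = h ▸ a j := by
          intro i
          by_cases h : ∃ j, s j = i
          · obtain ⟨j, rfl⟩ := h
            obtain ⟨⟨w, hw⟩, hwa⟩ := hg (s j) (a j)
            refine ⟨w, hw, fun j' h' => ?_⟩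
            obtain rfl := hs h'
            exact hwa
          · exact ⟨1, one_mem _, fun j hj => absurd ⟨j, hj⟩ h⟩
        choose t ht hta using h1
        obtain ⟨σ, -, hσ⟩ := hq3 t
        have hσF : σ ∈ F.fixingSubgroup := by
          rw [he2]
          intro i
          rw [MonoidHom.comp_apply, hσ]
          exact ht i
        refine ⟨fixingSubgroupEquiv F ⟨σ, hσF⟩, fun j => ?_⟩
        refine Eq.trans ?_ (hta (s j) j rfl)
        rw [MonoidHom.comp_apply]
        congr 1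
        apply Subtype.ext
        exact hσ (s j))
      (fun j => Subgroup.isOpen_mono (fun σ hσ => by
        rw [MonoidHom.mem_ker] at hσ
        rw [MonoidHom.mem_ker, MonoidHom.comp_apply, hσ, map_one]) (hro (s j)))
    refine ⟨F', hF', ⟨e'.symm⟩, fun x hx σ hσ => ?_⟩
    have hσF : σ ∈ F.fixingSubgroup := by
      rw [he2]
      intro i
      rw [MonoidHom.comp_apply, hσ, map_one]
    have h1 : fixingSubgroupEquiv F ⟨σ, hσF⟩ ∈ F'.fixingSubgroup := by
      rw [he'2]
      intro j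
      have h2 : r (s j) (fixingSubgroupEquiv F ⟨σ, hσF⟩) = 1 := Subtype.ext (hσ (s j))
      rw [MonoidHom.comp_apply, h2, map_one]
    exact (IntermediateField.mem_fixingSubgroup_iff _ _).1 h1 x hx

end Pool.Agent.X285.NC
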