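import Mathlib

/-!
# Inertia groups: primes which are ramified in the fixed field of a normal subgroup
-/

set_option autoImplicit false

namespace Pool.Agent.X285.NC

open NumberField

/-- If the inertia group of `Q` is contained in `H` then the fixed field of `H` is unramified at
the prime below `Q`. -/
theorem unram_under (L : Type) [Field L] [NumberField L] [IsGalois ℚ L]
    (H : Subgroup (L ≃ₐ[ℚ] L)) (Q : Ideal (𝓞 L)) (hQ : Q.IsPrime) (hQ0 : Q ≠ ⊥)
    (h : Q.inertia (L ≃ₐ[ℚ] L) ≤ H) :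
    Algebra.IsUnramifiedAt ℤ
      (Q.under (𝓞 (FixedPoints.intermediateField H : IntermediateField ℚ L))) := by
  let E : IntermediateField ℚ L := FixedPoints.intermediateField H
  have hgal : IsGaloisGroup H E L := IsGaloisGroup.subgroup (L ≃ₐ[ℚ] L) ℚ L H
  have hG1 : IsGaloisGroup (L ≃ₐ[ℚ] L) ℤ (𝓞 L) :=
    IsGaloisGroup.of_isFractionRing (L ≃ₐ[ℚ] L) ℤ (𝓞 L) ℚ L
  have hG2 : IsGaloisGroup H (𝓞 E) (𝓞 L) :=
    IsGaloisGroup.of_isFractionRing H (𝓞 E) (𝓞 L) E L
  have hQm : Q.IsMaximal := hQ.isMaximal hQ0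
  let P : Ideal (𝓞 E) := Q.under (𝓞 E)
  have hQP : Q.LiesOver P := inferInstance
  have hPm : P.IsMaximal := Ideal.IsMaximal.under (𝓞 E) Q
  have hP0 : P ≠ ⊥ := Ideal.IsMaximal.ne_bot_of_isIntegral_int P
  have : (P.under ℤ).IsMaximal := Ideal.IsMaximal.under ℤ P
  have : Q.LiesOver (P.under ℤ) := Ideal.LiesOver.trans Q P (P.under ℤ)
  have e1 : Nat.card (Q.inertia (L ≃ₐ[ℚ] L)) = Q.ramificationIdx ℤ := by
    rw [Ideal.card_inertia_eq_ramificationIdxIn (P.under ℤ),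
      Ideal.ramificationIdxIn_eq_ramificationIdx (P.under ℤ) Q (L ≃ₐ[ℚ] L)]
  have e2 : Nat.card (Q.inertia H) = Q.ramificationIdx (𝓞 E) := by
    rw [Ideal.card_inertia_eq_ramificationIdxIn P,
      Ideal.ramificationIdxIn_eq_ramificationIdx P Q H]
  have e3 : Nat.card (Q.inertia H) = Nat.card (Q.inertia (L ≃ₐ[ℚ] L)) := by
    have h6 := AddSubgroup.inertia_map_subtype (G := L ≃ₐ[ℚ] L) Q.toAddSubgroup H
    rw [inf_eq_left.2 h] at h6
    rw [← h6]
    exact Nat.card_congr ((Q.inertia H).equivMapOfInjective H.subtype H.subtype_injective).toEquiv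
  have tower := Ideal.ramificationIdx_tower (R := ℤ) P Q
  change Algebra.IsUnramifiedAt ℤ P
  rw [← Ideal.ramificationIdx_eq_one_iff]
  rw [← e1, ← e2, e3] at tower
  have hpos : 0 < Nat.card (Q.inertia (L ≃ₐ[ℚ] L)) := Nat.card_pos
  nlinarith [tower]

/-- Minkowski's theorem for the fixed field of a proper normal subgroup. -/
theorem exists_prime (L : Type) [Field L] [NumberField L] [IsGalois ℚ L]
    (H : Subgroup (L ≃ₐ[ℚ] L)) (hn : H.Normal) (hH : H ≠ ⊤) :
    ∃ q : ℕ, q.Prime ∧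
      (∀ Q : Ideal (𝓞 L), Q.IsPrime → (q : 𝓞 L) ∈ Q → ∃ γ ∈ Q.inertia (L ≃ₐ[ℚ] L), γ ∉ H) ∧
      ∀ E : IntermediateField ℚ L, E.fixingSubgroup ≤ H → (q : ℤ) ∣ discr E := by
  let F : IntermediateField ℚ L := FixedPoints.intermediateField H
  have hgal : IsGaloisGroup H F L := IsGaloisGroup.subgroup (L ≃ₐ[ℚ] L) ℚ L H
  have hF : Module.finrank ℚ F ≠ 1 := by
    intro h1
    apply hH
    have h2 : Nat.card H = Module.finrank F L := IsGaloisGroup.card_eq_finrank H F L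
    have h3 : Module.finrank ℚ F * Module.finrank F L = Module.finrank ℚ L :=
      Module.finrank_mul_finrank ℚ F L
    have h4 : Nat.card (L ≃ₐ[ℚ] L) = Module.finrank ℚ L :=
      IsGaloisGroup.card_eq_finrank (L ≃ₐ[ℚ] L) ℚ L
    apply Subgroup.eq_top_of_card_eq
    rw [h2, h4, ← h3, h1, one_mul]
  have hFF : F = IntermediateField.fixedField H := by
    ext x
    rw [IntermediateField.mem_fixedField_iff]
    constructor
    · intro hx f hf
      exact hx ⟨f, hf⟩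
    · intro hx f
      exact hx f.1 f.2
  have hFG : IsGalois ℚ F := by
    rw [hFF]
    have := IsGalois.of_fixedField_normal_subgroup (K := ℚ) (L := L) H
    exact this
  have hlt : 1 < Module.finrank ℚ F := by
    have := Module.finrank_pos (R := ℚ) (M := F)
    omega
  obtain ⟨q, hq, hun⟩ :=
    NumberField.exists_not_isUnramifiedAt_int_of_isGalois (K := F) (𝒪 := 𝓞 F) hlt
  refine ⟨q, hq, fun Q hQ hqQ => ?_, fun E hE => ?_⟩
  · by_contra hcon
    push Not at hcon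
    have hq0 : (q : 𝓞 L) ≠ 0 := by exact_mod_cast hq.ne_zero
    have hQ0 : Q ≠ ⊥ := by
      rintro rfl
      rw [Ideal.mem_bot] at hqQ
      exact hq0 hqQ
    have hP : (Q.under (𝓞 F)).IsPrime := inferInstance
    refine hun (Q.under (𝓞 F)) hP ?_ (unram_under L H Q hQ hQ0 hcon)
    change algebraMap (𝓞 F) (𝓞 L) (q : 𝓞 F) ∈ Q
    simpa using hqQ
  · have hle : F ≤ E := by
      rw [hFF]
      intro x hx
      have h1 : x ∈ IntermediateField.fixedField E.fixingSubgroup := by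
        rw [IntermediateField.mem_fixedField_iff] at hx ⊢
        exact fun f hf => hx f (hE hf)
      rwa [IsGalois.fixedField_fixingSubgroup] at h1
    have hdF : (q : ℤ) ∣ discr F := by
      by_contra hd
      have h2 := (not_dvd_discr_iff_forall_mem F (𝓞 F) (Nat.prime_iff_prime_int.mp hq)).mp hd
      have hqm : (Ideal.span {(q : ℤ)}).IsMaximal := Ideal.IsPrime.isMaximal
          ((Ideal.span_singleton_prime (Nat.prime_iff_prime_int.mp hq).ne_zero).2
            (Nat.prime_iff_prime_int.mp hq)) (by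
              rw [Ne, Ideal.span_singleton_eq_bot]
              exact (Nat.prime_iff_prime_int.mp hq).ne_zero)
      obtain ⟨Q, hQm, hQ⟩ := Ideal.exists_maximal_ideal_liesOver_of_isIntegral (S := 𝓞 F)
        (Ideal.span {(q : ℤ)})
      have h3 : (q : ℤ) ∈ Ideal.under ℤ Q := by
        rw [← hQ.over]; exact Ideal.mem_span_singleton_self _
      have h4 : ((q : ℤ) : 𝓞 F) ∈ Q := h3
      refine hun Q hQm.isPrime ?_ (h2 Q hQm.isPrime h4)
      simpa using h4
    let _ : Algebra F E := (IntermediateField.inclusion hle).toRingHom.toAlgebra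
    exact hdF.trans (discr_dvd_discr F E)

/-- The inertia group acts trivially on unramified Galois subfields. -/
theorem inertia_trivial (L : Type) [Field L] [NumberField L] [IsGalois ℚ L]
    (B : IntermediateField ℚ L) (hB : IsGalois ℚ B) (q : ℕ) (hq : q.Prime)
    (hd : ¬ (q : ℤ) ∣ discr B) (Q : Ideal (𝓞 L)) (hQ : Q.IsPrime) (hqQ : (q : 𝓞 L) ∈ Q)
    (γ : L ≃ₐ[ℚ] L) (hγ : γ ∈ Q.inertia (L ≃ₐ[ℚ] L)) (x : B) : γ (x : L) = x := by
  have hQZ : (q : ℤ) ∈ Ideal.under ℤ Q := by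
    change algebraMap ℤ (𝓞 L) (q : ℤ) ∈ Q
    simpa using hqQ
  have hq0 : (q : 𝓞 L) ≠ 0 := by exact_mod_cast hq.ne_zero
  have hQ0 : Q ≠ ⊥ := by
    rintro rfl
    rw [Ideal.mem_bot] at hqQ
    exact hq0 hqQ
  have hQm : Q.IsMaximal := hQ.isMaximal hQ0
  let P : Ideal (𝓞 B) := Q.under (𝓞 B)
  have hPm : P.IsMaximal := Ideal.IsMaximal.under (𝓞 B) Q
  have hP0 : P ≠ ⊥ := Ideal.IsMaximal.ne_bot_of_isIntegral_int P
  have : (P.under ℤ).IsMaximal := Ideal.IsMaximal.under ℤ P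
  have hG1 : IsGaloisGroup (B ≃ₐ[ℚ] B) ℤ (𝓞 B) :=
    IsGaloisGroup.of_isFractionRing (B ≃ₐ[ℚ] B) ℤ (𝓞 B) ℚ B
  have hqP : ((q : ℤ) : 𝓞 B) ∈ P := by
    change algebraMap (𝓞 B) (𝓞 L) ((q : ℤ) : 𝓞 B) ∈ Q
    simpa using hqQ
  have hun := (not_dvd_discr_iff_forall_mem B (𝓞 B) (Nat.prime_iff_prime_int.mp hq)).mp hd P
    hPm.isPrime hqP
  have e0 : P.ramificationIdx ℤ = 1 := Ideal.ramificationIdx_eq_one_iff.2 hun
  have e1 : Nat.card (P.inertia (B ≃ₐ[ℚ] B)) = 1 := by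
    rw [Ideal.card_inertia_eq_ramificationIdxIn (P.under ℤ),
      Ideal.ramificationIdxIn_eq_ramificationIdx (P.under ℤ) P (B ≃ₐ[ℚ] B), e0]
  have e2 : P.inertia (B ≃ₐ[ℚ] B) = ⊥ := Subgroup.eq_bot_of_card_eq _ e1
  have hmem : AlgEquiv.restrictNormalHom B γ ∈ P.inertia (B ≃ₐ[ℚ] B) := by
    intro y
    change algebraMap (𝓞 B) (𝓞 L) (AlgEquiv.restrictNormalHom B γ • y - y) ∈ Q
    have h1 := hγ (algebraMap (𝓞 B) (𝓞 L) y)
    have h2 : algebraMap (𝓞 B) (𝓞 L) (AlgEquiv.restrictNormalHom B γ • y - y) =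
        γ • (algebraMap (𝓞 B) (𝓞 L) y) - algebraMap (𝓞 B) (𝓞 L) y := by
      rw [map_sub]
      congr 1
      apply RingOfIntegers.ext
      have h3 := AlgEquiv.restrictNormal_commutes γ B (y : B)
      exact h3
    rw [h2]
    exact h1
  rw [e2, Subgroup.mem_bot] at hmem
  have h3 := AlgEquiv.restrictNormal_commutes γ B x
  have h4 : AlgEquiv.restrictNormalHom B γ x = x := by rw [hmem]; rfl
  have h5 : algebraMap B L (AlgEquiv.restrictNormalHom B γ x) = γ (algebraMap B L x) := h3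
  rw [h4] at h5
  exact h5.symm

end Pool.Agent.X285.NC
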