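import Mathlib
import Pool.Agent.X285.NC.Iner
import Pool.Agent.X285.Ram

/-!
# Local estimates for the action of inertia groups
-/

set_option autoImplicit false

namespace Pool.Agent.X285.NC

open NumberField IsDedekindDomain Polynomial
open Pool.Agent.H58P (Qb ht qb_isIntegral)

theorem centre_prime (M : IntermediateField ℚ Qb) (V : ValuationSubring Qb) :
    (centre M V).IsPrime := by
  refine ⟨?_, ?_⟩
  · intro h
    have h1 : (1 : 𝓞 M) ∈ centre M V := by rw [h]; trivial
    rw [mem_centre] at h1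
    simp at h1
  · intro a b hab
    by_contra hcon
    push Not at hcon
    obtain ⟨h1, h2⟩ := hcon
    rw [mem_centre, not_lt] at h1 h2
    rw [mem_centre] at hab
    push_cast at hab
    rw [map_mul] at hab
    have h3 : V.valuation ((a : M) : Qb) = 1 := le_antisymm (int_val_le M V a) h1
    have h4 : V.valuation ((b : M) : Qb) = 1 := le_antisymm (int_val_le M V b) h2
    rw [h3, h4, one_mul] at hab
    exact lt_irrefl _ hab

theorem nat_mem_centre (M : IntermediateField ℚ Qb) (V : ValuationSubring Qb) (q : ℕ)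
    (hV : V.valuation (q : Qb) < 1) : (q : 𝓞 M) ∈ centre M V := by
  rw [mem_centre]
  simpa using hV

/-- Elements of value at most one are quotients of integers with denominator of value one. -/
theorem exists_frac (M : IntermediateField ℚ Qb) [NumberField M] (V : ValuationSubring Qb) (q : ℕ)
    (hq : q.Prime) (hV : V.valuation (q : Qb) < 1) (x : M) (hx : V.valuation (x : Qb) ≤ 1) :
    ∃ n d : 𝓞 M, V.valuation ((d : M) : Qb) = 1 ∧ x * (d : M) = (n : M) := by
  set P := centre M V with hP
  have hPprime : P.IsPrime := centre_prime M V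
  have hq0 : (q : 𝓞 M) ≠ 0 := by exact_mod_cast hq.ne_zero
  have hPbot : P ≠ ⊥ := by
    intro h
    have := nat_mem_centre M V q hV
    rw [← hP, h, Ideal.mem_bot] at this
    exact hq0 this
  let v : HeightOneSpectrum (𝓞 M) := ⟨P, hPprime, hPbot⟩
  have key : ∀ y : M, v.valuation M y ≤ 1 → ∃ n d : 𝓞 M, d ∉ P ∧ y * (d : M) = (n : M) := by
    intro y hy
    obtain ⟨n, d, hnd⟩ := v.exists_primeCompl_mul_eq_of_integer y hy
    exact ⟨n, d, d.2, hnd⟩
  have hone : ∀ d : 𝓞 M, d ∉ P → V.valuation ((d : M) : Qb) = 1 := by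
    intro d hd
    rw [mem_centre, not_lt] at hd
    exact le_antisymm (int_val_le M V d) hd
  by_cases hvx : v.valuation M x ≤ 1
  · obtain ⟨n, d, hd, hnd⟩ := key x hvx
    exact ⟨n, d, hone d hd, hnd⟩
  · exfalso
    rw [not_le] at hvx
    have hx0 : x ≠ 0 := by
      rintro rfl
      rw [map_zero] at hvx
      exact absurd hvx (not_lt.mpr zero_le)
    have h1 : v.valuation M x⁻¹ < 1 := by
      rw [map_inv₀]
      exact inv_lt_one_of_one_lt₀ hvx
    obtain ⟨n, d, hd, hnd⟩ := key x⁻¹ h1.le
    have hvd : v.valuation M (d : M) = 1 := by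
      rw [show (d : M) = algebraMap (𝓞 M) M d from rfl, HeightOneSpectrum.valuation_of_algebraMap,
        v.intValuation_eq_one_iff]
      exact hd
    have hvn : v.valuation M (n : M) < 1 := by
      rw [← hnd, map_mul, hvd, mul_one]
      exact h1
    have hn : n ∈ P := by
      rw [show (n : M) = algebraMap (𝓞 M) M n from rfl,
        HeightOneSpectrum.valuation_of_algebraMap, v.intValuation_lt_one_iff_mem] at hvn
      exact hvn
    rw [mem_centre] at hn
    have h4 : (x : Qb)⁻¹ * ((d : M) : Qb) = ((n : M) : Qb) := by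
      have := congrArg (algebraMap M Qb) hnd
      simpa using this
    have h5 := congrArg V.valuation h4
    rw [map_mul, hone d hd, mul_one, map_inv₀] at h5
    rw [← h5] at hn
    have h6 : V.valuation (x : Qb) ≠ 0 := by
      rw [Valuation.ne_zero_iff]
      exact_mod_cast hx0
    exact absurd hx (not_le.mpr ((inv_lt_one₀ (zero_lt_iff.mpr h6)).mp hn))

/-- Elements of the inertia group move integral elements little. -/
theorem val_sub_lt (M : IntermediateField ℚ Qb) [NumberField M] (V : ValuationSubring Qb) (q : ℕ)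
    (hq : q.Prime) (hV : V.valuation (q : Qb) < 1) (γ : M ≃ₐ[ℚ] M)
    (hγ : γ ∈ (centre M V).inertia (M ≃ₐ[ℚ] M)) (x : M) (hx : V.valuation (x : Qb) ≤ 1) :
    V.valuation ((γ x : Qb) - (x : Qb)) < 1 := by
  obtain ⟨n, d, hd, hnd⟩ := exists_frac M V q hq hV x hx
  have hmove : ∀ z : 𝓞 M, V.valuation ((γ (z : M) : Qb) - ((z : M) : Qb)) < 1 := by
    intro z
    have h1 : γ • z - z ∈ centre M V := hγ z
    rw [mem_centre] at h1
    have h2 : (((γ • z - z : 𝓞 M) : M) : Qb) = (γ (z : M) : Qb) - ((z : M) : Qb) := by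
      have h3 : ((γ • z - z : 𝓞 M) : M) = γ (z : M) - (z : M) := by
        push_cast
        rfl
      rw [h3]
      push_cast
      rfl
    rwa [h2] at h1
  have hγd : V.valuation (γ (d : M) : Qb) = 1 := by
    have h1 : (γ (d : M) : Qb) = ((γ (d : M) : Qb) - ((d : M) : Qb)) + ((d : M) : Qb) := by ring
    rw [h1, Valuation.map_add_eq_of_lt_right, hd]
    rw [hd]
    exact hmove d
  have h1 : (γ x : Qb) * (γ (d : M) : Qb) = (γ (n : M) : Qb) := by
    rw [← hnd, map_mul]
    push_cast
    rfl
  have h2 : (x : Qb) * ((d : M) : Qb) = ((n : M) : Qb) := by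
    rw [← hnd]
    push_cast
    rfl
  have h3 : ((γ x : Qb) - (x : Qb)) * (γ (d : M) : Qb) =
      ((γ (n : M) : Qb) - ((n : M) : Qb)) - (x : Qb) * ((γ (d : M) : Qb) - ((d : M) : Qb)) := by
    rw [sub_mul, h1, ← h2]
    ring
  have h4 : V.valuation (((γ x : Qb) - (x : Qb)) * (γ (d : M) : Qb)) < 1 := by
    rw [h3]
    refine (Valuation.map_sub _ _ _).trans_lt (max_lt (hmove n) ?_)
    rw [map_mul]
    calc V.valuation (x : Qb) * V.valuation ((γ (d : M) : Qb) - ((d : M) : Qb))
        ≤ 1 * V.valuation ((γ (d : M) : Qb) - ((d : M) : Qb)) := mul_le_mul_left hx _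
      _ < 1 := by rw [one_mul]; exact hmove d
  rwa [map_mul, hγd, mul_one] at h4

/-- Values of elements of bounded degree over an unramified field. -/
theorem val_pow_le (B : IntermediateField ℚ Qb) [NumberField B] (V : ValuationSubring Qb) (q : ℕ)
    (hq : q.Prime) (hd : ¬ (q : ℤ) ∣ discr B) (hV : V.valuation (q : Qb) < 1) (x : Qb) (m : ℕ)
    (hm : (minpoly B x).natDegree ≤ m) (hx : V.valuation x < 1) :
    V.valuation x ^ m ≤ V.valuation (q : Qb) := by
  have hint : IsIntegral B x := (qb_isIntegral x).tower_top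
  have hdpos : 0 < (minpoly B x).natDegree := minpoly.natDegree_pos hint
  have hm0 : 0 < m := by omega
  by_cases hx0 : x = 0
  · rw [hx0, map_zero, zero_pow hm0.ne']
    exact zero_le
  have hVx : V.valuation x ≠ 0 := (Valuation.ne_zero_iff _).mpr hx0
  have hq0 : V.valuation (q : Qb) ≠ 0 := by
    rw [Valuation.ne_zero_iff]
    exact_mod_cast hq.ne_zero
  set d := (minpoly B x).natDegree with hd'
  have hsum : ∑ k ∈ Finset.range (d + 1), ((minpoly B x).coeff k : Qb) * x ^ k = 0 := by
    have h1 := minpoly.aeval B x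
    rw [aeval_eq_sum_range] at h1
    rw [← h1]
    exact Finset.sum_congr rfl fun k _ => by rw [Algebra.smul_def]; rfl
  have hex : ∃ i ∈ Finset.range (d + 1), ∃ j ∈ Finset.range (d + 1), i < j ∧
      V.valuation (((minpoly B x).coeff i : Qb) * x ^ i) =
        V.valuation (((minpoly B x).coeff j : Qb) * x ^ j) ∧
      V.valuation (((minpoly B x).coeff i : Qb) * x ^ i) ≠ 0 := by
    by_contra hcon
    push Not at hcon
    have h1 := le_val_sum V.valuation (Finset.range (d + 1))
      (fun k => ((minpoly B x).coeff k : Qb) * x ^ k) (by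
        intro i hi j hj h0 hij
        rcases lt_trichotomy i j with h | h | h
        · exact absurd (hcon i hi j hj h hij) h0
        · exact h
        · have h2 := hcon j hj i hi h hij.symm
          rw [← hij] at h2
          exact absurd h2 h0) d (Finset.mem_range.2 (Nat.lt_succ_self d))
    rw [hsum, map_zero] at h1
    have h2 : (minpoly B x).coeff d = 1 := by
      have := minpoly.monic hint
      exact this
    rw [h2] at h1
    simp only [OneMemClass.coe_one, one_mul, map_pow] at h1
    exact absurd h1 (not_le.mpr (zero_lt_iff.mpr (pow_ne_zero _ hVx)))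
  obtain ⟨i, hi, j, hj, hij, hval, hne⟩ := hex
  have hci : (minpoly B x).coeff i ≠ 0 := by
    intro h
    rw [h] at hne
    simp at hne
  have hcj : (minpoly B x).coeff j ≠ 0 := by
    intro h
    rw [hval, h] at hne
    simp at hne
  obtain ⟨a, ha⟩ := val_zpow B q hq hd V hV _ hci
  obtain ⟨b, hb⟩ := val_zpow B q hq hd V hV _ hcj
  rw [map_mul, map_mul, map_pow, map_pow, ha, hb] at hval
  have h1 : V.valuation x ^ (j - i) = V.valuation (q : Qb) ^ (a - b) := by
    have h2 : V.valuation x ^ j = V.valuation x ^ i * V.valuation x ^ (j - i) := by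
      rw [← pow_add]
      congr 1
      omega
    rw [h2] at hval
    rw [zpow_sub₀ hq0]
    have h3 : V.valuation (q : Qb) ^ b ≠ 0 := zpow_ne_zero _ hq0
    have h4 : V.valuation x ^ i ≠ 0 := pow_ne_zero _ hVx
    rw [eq_div_iff h3]
    apply mul_left_cancel₀ h4
    calc V.valuation x ^ i * (V.valuation x ^ (j - i) * V.valuation (q : Qb) ^ b)
        = V.valuation (q : Qb) ^ b * (V.valuation x ^ i * V.valuation x ^ (j - i)) := by
          rw [mul_comm (V.valuation (q : Qb) ^ b), mul_assoc]
      _ = V.valuation (q : Qb) ^ a * V.valuation x ^ i := hval.symm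
      _ = V.valuation x ^ i * V.valuation (q : Qb) ^ a := mul_comm _ _
  have h2 : V.valuation x ^ (j - i) < 1 := pow_lt_one₀ zero_le hx (by omega)
  rw [h1] at h2
  have h3 : 1 ≤ a - b := by
    by_contra hcon
    have h4 : (1 : V.ValueGroup) ≤ V.valuation (q : Qb) ^ (a - b) := by
      calc (1 : V.ValueGroup) = V.valuation (q : Qb) ^ (0 : ℤ) := (zpow_zero _).symm
        _ ≤ V.valuation (q : Qb) ^ (a - b) :=
          zpow_le_zpow_right_of_le_one₀ (zero_lt_iff.mpr hq0) hV.le (by omega)
    exact absurd h2 (not_lt.mpr h4)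
  rw [Finset.mem_range] at hj
  calc V.valuation x ^ m ≤ V.valuation x ^ (j - i) := pow_le_pow_right_of_le_one' hx.le (by omega)
    _ = V.valuation (q : Qb) ^ (a - b) := h1
    _ ≤ V.valuation (q : Qb) ^ (1 : ℤ) :=
      zpow_le_zpow_right_of_le_one₀ (zero_lt_iff.mpr hq0) hV.le h3
    _ = V.valuation (q : Qb) := zpow_one _

/-- The estimate for pairs of conjugates under the inertia group. -/
theorem val_pair (B K : IntermediateField ℚ Qb) [NumberField B] [NumberField K]
    (V : ValuationSubring Qb) (q : ℕ)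
    (hq : q.Prime) (hd : ¬ (q : ℤ) ∣ discr B) (hV : V.valuation (q : Qb) < 1) (m : ℕ)
    (hm : ∀ z ∈ K, (minpoly B z).natDegree ≤ m)
    (γ : K ≃ₐ[ℚ] K) (hγ : γ ∈ (centre K V).inertia (K ≃ₐ[ℚ] K)) (x : K) :
    V.valuation ((γ x : Qb) - (x : Qb)) ^ m ≤ V.valuation (q : Qb) *
      (max 1 (V.valuation (γ x : Qb)) * max 1 (V.valuation (x : Qb))) ^ m := by
  have hone : (1 : V.ValueGroup) ≤
      max 1 (V.valuation (γ x : Qb)) * max 1 (V.valuation (x : Qb)) :=
    one_le_mul (le_max_left _ _) (le_max_left _ _)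
  by_cases hx : V.valuation (x : Qb) ≤ 1
  · have h1 := val_sub_lt K V q hq hV γ hγ x hx
    have h2 := val_pow_le B V q hq hd hV _ m (hm _ (K.sub_mem (γ x).2 x.2)) h1
    calc V.valuation ((γ x : Qb) - (x : Qb)) ^ m ≤ V.valuation (q : Qb) * 1 := by
          rw [mul_one]; exact h2
      _ ≤ _ := mul_le_mul_right (one_le_pow_of_one_le' hone m) _
  · rw [not_le] at hx
    have hx0 : x ≠ 0 := by
      rintro rfl
      simp only [ZeroMemClass.coe_zero, map_zero] at hx
      exact absurd hx (not_lt.mpr zero_le)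
    have hxQ : (x : Qb) ≠ 0 := by exact_mod_cast hx0
    have hγx0 : γ x ≠ 0 := (map_ne_zero_iff γ γ.injective).2 hx0
    have hγxQ : (γ x : Qb) ≠ 0 := by exact_mod_cast hγx0
    have h0 : V.valuation ((x⁻¹ : K) : Qb) ≤ 1 := by
      push_cast
      rw [map_inv₀]
      exact (inv_lt_one_of_one_lt₀ hx).le
    have h1 := val_sub_lt K V q hq hV γ hγ x⁻¹ h0
    have h2 := val_pow_le B V q hq hd hV _ m (hm _ (K.sub_mem (γ x⁻¹).2 (x⁻¹).2)) h1
    have e : (γ x : Qb) - (x : Qb) =
        ((γ x : Qb) * (x : Qb)) * -(((γ x⁻¹ : K) : Qb) - ((x⁻¹ : K) : Qb)) := by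
      rw [map_inv₀]
      push_cast
      field_simp
      ring
    rw [e, map_mul, map_mul, Valuation.map_neg, mul_pow, mul_comm]
    calc V.valuation (((γ x⁻¹ : K) : Qb) - ((x⁻¹ : K) : Qb)) ^ m *
          (V.valuation (γ x : Qb) * V.valuation (x : Qb)) ^ m
        ≤ V.valuation (q : Qb) * (V.valuation (γ x : Qb) * V.valuation (x : Qb)) ^ m :=
          mul_le_mul_left h2 _
      _ ≤ _ := by
          apply mul_le_mul_right
          exact pow_le_pow_left₀ zero_le
            (mul_le_mul' (le_max_right _ _) (le_max_right _ _)) m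

end Pool.Agent.X285.NC
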