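import Mathlib
import Pool.Agent.X285.NC.Loc
import Pool.Agent.X285.Deg
import Pool.Agent.H451R6.Dis
import Pool.Agent.H391R2.T4.Gp

/-!
# Heights of the elements of a compositum with a field ramified only at large primes
-/

set_option autoImplicit false

namespace Pool.Agent.X285.NC

open NumberField IntermediateField AlgEquiv
open Pool.Agent.H58P (Qb ht qb_isIntegral)
open Pool.Agent.H58B (ht_conj)
open Pool.Agent.W70.LD (height_prod_ge)
open Pool.Agent.H451R6 (glue)

/-- The Galois group of a compositum of two disjoint Galois extensions. -/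
theorem exists_prod {k Ω : Type} [Field k] [Field Ω] [Algebra k Ω] [IsGalois k Ω]
    (B E : IntermediateField k Ω) [IsGalois k B] [IsGalois k E] [FiniteDimensional k E]
    [IsGalois k ↥(B ⊔ E)] (h : B ⊓ E = ⊥) :
    ∃ e : Gal(↥(B ⊔ E)/k) ≃* Gal(B/k) × Gal(E/k), ∀ σ : Gal(Ω/k),
      e (restrictNormalHom ↥(B ⊔ E) σ) = (restrictNormalHom B σ, restrictNormalHom E σ) := by
  obtain ⟨e, he⟩ := Pool.Agent.H391R2.T4.exists_equiv_of_ker
    (restrictNormalHom (F := k) (K₁ := Ω) ↥(B ⊔ E))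
    ((restrictNormalHom (F := k) (K₁ := Ω) B).prod (restrictNormalHom (F := k) (K₁ := Ω) E))
    (restrictNormalHom_surjective Ω) (by
      rintro ⟨x, y⟩
      obtain ⟨σ, hσ⟩ := restrictNormalHom_surjective (F := k) (K₁ := B) Ω x
      obtain ⟨τ, hτ⟩ := restrictNormalHom_surjective (F := k) (K₁ := E) Ω y
      obtain ⟨ρ, h1, h2⟩ := glue B E h σ τ
      exact ⟨ρ, Prod.ext (h1.trans hσ) (h2.trans hτ)⟩) (by
      ext σ
      rw [restrictNormalHom_ker, fixingSubgroup_sup, Subgroup.mem_inf, ← restrictNormalHom_ker,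
        ← restrictNormalHom_ker, MonoidHom.mem_ker, MonoidHom.mem_ker, MonoidHom.mem_ker]
      exact (Prod.ext_iff (x := (restrictNormalHom B σ, restrictNormalHom E σ))
        (y := (1 : Gal(B/k) × Gal(E/k)))).symm)
  exact ⟨e, he⟩

theorem res_iff {k Ω : Type} [Field k] [Field Ω] [Algebra k Ω]
    (B : IntermediateField k Ω) [IsGalois k B] (σ : Gal(Ω/k)) :
    restrictNormalHom B σ = 1 ↔ ∀ z ∈ B, σ z = z := by
  rw [← MonoidHom.mem_ker, restrictNormalHom_ker, IntermediateField.mem_fixingSubgroup_iff]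

/-- Lower bound for the height of the elements of `B E` outside `B`, if `E` is ramified only at
primes `≥ N` which are unramified in `B`. -/
theorem ht_ge (B E : IntermediateField ℚ Qb) [NumberField B] [NumberField E]
    (hB : Pool.Agent.H451R6.FG B) (hE : Pool.Agent.H451R6.FG E)
    (hBE : B ⊓ E = ⊥) (N : ℕ) (hN0 : 0 < N)
    (hN : ∀ q : ℕ, q.Prime → (q : ℤ) ∣ discr E → N ≤ q ∧ ¬ (q : ℤ) ∣ discr B)
    (α : Qb) (hα : α ∈ B ⊔ E) (hαB : α ∉ B) :
    Real.log N / (2 * (Module.finrank ℚ E : ℝ) ^ 3) - Real.log 2 / 2 ≤ ht α := by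
  classical
  have hQb : IsGalois ℚ Qb := gal_Qb
  have hFGK : Pool.Agent.H451R6.FG (B ⊔ E) := hB.sup hE
  have iB1 := hB.2
  have iE1 := hE.2
  have iE2 := hE.1
  have iK1 := hFGK.2
  have iB : IsGalois ℚ B := hB.2
  have iE : IsGalois ℚ E := hE.2
  have hKf : FiniteDimensional ℚ ↥(B ⊔ E) := hFGK.1
  have hKg : IsGalois ℚ ↥(B ⊔ E) := hFGK.2
  have hKn : NumberField ↥(B ⊔ E) := ⟨⟩
  obtain ⟨e, he⟩ : ∃ e : Gal(↥(B ⊔ E)/ℚ) ≃* Gal(B/ℚ) × Gal(E/ℚ), ∀ σ : Gal(Qb/ℚ),
      e (restrictNormalHom ↥(B ⊔ E) σ) = (restrictNormalHom B σ, restrictNormalHom E σ) :=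
    exists_prod B E hBE
  set m := Module.finrank ℚ E with hm
  have hcard : Fintype.card Gal(E/ℚ) = m := by
    rw [← Nat.card_eq_fintype_card, IsGalois.card_aut_eq_finrank]
  have hm0 : 0 < m := Module.finrank_pos
  let a : ↥(B ⊔ E) := ⟨α, hα⟩
  let θ : Gal(E/ℚ) → Gal(↥(B ⊔ E)/ℚ) := fun t => e.symm (1, t)
  have hθmul : ∀ s t, θ (s * t) = θ s * θ t := by
    intro s t
    change e.symm (1, s * t) = e.symm (1, s) * e.symm (1, t)
    rw [← map_mul, Prod.mk_mul_mk, one_mul]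
  have hθ1 : θ 1 = 1 := map_one e.symm
  -- lifts
  have hlift : ∀ g : Gal(↥(B ⊔ E)/ℚ), ∃ ρ : Gal(Qb/ℚ), restrictNormalHom ↥(B ⊔ E) ρ = g :=
    fun g => restrictNormalHom_surjective (F := ℚ) (K₁ := ↥(B ⊔ E)) Qb g
  have hact : ∀ (ρ : Gal(Qb/ℚ)) (z : ↥(B ⊔ E)),
      ((restrictNormalHom ↥(B ⊔ E) ρ z : ↥(B ⊔ E)) : Qb) = ρ (z : Qb) := fun ρ z =>
    restrictNormal_commutes ρ ↥(B ⊔ E) z
  have hresB : ∀ ρ : Gal(Qb/ℚ), restrictNormalHom B ρ = 1 ↔ ∀ z ∈ B, ρ z = z := res_iff B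
  have hresE : ∀ ρ : Gal(Qb/ℚ), restrictNormalHom E ρ = 1 ↔ ∀ z ∈ E, ρ z = z := res_iff E
  have hfixB : ∀ g : Gal(↥(B ⊔ E)/ℚ), (∀ b : ↥(B ⊔ E), (b : Qb) ∈ B → g b = b) ↔ (e g).1 = 1 := by
    intro g
    obtain ⟨ρ, rfl⟩ := hlift g
    rw [he]
    change _ ↔ restrictNormalHom B ρ = 1
    rw [hresB]
    constructor
    · intro h z hz
      have h1 := h ⟨z, (le_sup_left : B ≤ B ⊔ E) hz⟩ hz
      have h2 := hact ρ ⟨z, (le_sup_left : B ≤ B ⊔ E) hz⟩
      rw [h1] at h2
      exact h2.symm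
    · intro h b hb
      apply Subtype.ext
      rw [hact]
      exact h b hb
  have hfixE : ∀ g : Gal(↥(B ⊔ E)/ℚ), (∀ b : ↥(B ⊔ E), (b : Qb) ∈ E → g b = b) → (e g).2 = 1 := by
    intro g
    obtain ⟨ρ, rfl⟩ := hlift g
    rw [he]
    change _ → restrictNormalHom E ρ = 1
    rw [hresE]
    intro h z hz
    have h1 := h ⟨z, (le_sup_right : E ≤ B ⊔ E) hz⟩ hz
    have h2 := hact ρ ⟨z, (le_sup_right : E ≤ B ⊔ E) hz⟩
    rw [h1] at h2
    exact h2.symm
  have hθ : ∀ g : Gal(↥(B ⊔ E)/ℚ), (e g).1 = 1 → g = θ (e g).2 := by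
    intro g hg
    change g = e.symm (1, (e g).2)
    rw [← hg, Prod.mk.eta, MulEquiv.symm_apply_apply]
  let C : Subgroup Gal(E/ℚ) :=
    { carrier := {t | ∀ u, θ (t * u) a = θ u a}
      mul_mem' := by
        intro s t hs ht u
        rw [mul_assoc, hs, ht]
      one_mem' := by
        intro u
        rw [one_mul]
      inv_mem' := by
        intro s hs u
        have := hs (s⁻¹ * u)
        rw [mul_inv_cancel_left] at this
        exact this.symm }
  have hCmem : ∀ t, t ∈ C ↔ ∀ u, θ (t * u) a = θ u a := fun t => Iff.rfl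
  have hCn : C.Normal := by
    refine ⟨fun t ht s u => ?_⟩
    have h1 := (hCmem t).1 ht (s⁻¹ * u)
    have h2 : s * t * s⁻¹ * u = s * (t * (s⁻¹ * u)) := by group
    rw [h2, hθmul, AlgEquiv.mul_apply, h1, ← AlgEquiv.mul_apply, ← hθmul, mul_inv_cancel_left]
  let π : Gal(↥(B ⊔ E)/ℚ) →* Gal(E/ℚ) := (MonoidHom.snd _ _).comp e.toMonoidHom
  have hπ : Function.Surjective π := Prod.snd_surjective.comp e.surjective
  let H : Subgroup Gal(↥(B ⊔ E)/ℚ) := C.comap π
  have hHn : H.Normal := hCn.comap π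
  have hH : H ≠ ⊤ := by
    intro htop
    apply hαB
    have h1 : ∀ t, θ t a = a := by
      intro t
      obtain ⟨g, rfl⟩ := hπ t
      have h2 : g ∈ H := by rw [htop]; trivial
      have h3 := (hCmem _).1 h2 1
      rw [mul_one, hθ1] at h3
      exact h3
    rw [← InfiniteGalois.fixedField_fixingSubgroup B, mem_fixedField_iff]
    intro ρ hρ
    have h2 : (e (restrictNormalHom ↥(B ⊔ E) ρ)).1 = 1 := by
      rw [he]
      change restrictNormalHom B ρ = 1
      rw [hresB]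
      exact (IntermediateField.mem_fixingSubgroup_iff _ _).1 hρ
    have h3 := hact ρ a
    rw [hθ _ h2, h1] at h3
    exact h3.symm
  obtain ⟨q, hq, hQ, hd⟩ := exists_prime ↥(B ⊔ E) H hHn hH
  -- the subfields
  let B' : IntermediateField ℚ ↥(B ⊔ E) := restrict (le_sup_left : B ≤ B ⊔ E)
  let E' : IntermediateField ℚ ↥(B ⊔ E) := restrict (le_sup_right : E ≤ B ⊔ E)
  have hdB : discr B' = discr B :=
    discr_eq_discr_of_algEquiv _ (restrictAlgEquiv (le_sup_left : B ≤ B ⊔ E)).symm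
  have hdE : discr E' = discr E :=
    discr_eq_discr_of_algEquiv _ (restrictAlgEquiv (le_sup_right : E ≤ B ⊔ E)).symm
  have hB'g : IsGalois ℚ B' := IsGalois.of_algEquiv (restrictAlgEquiv (le_sup_left : B ≤ B ⊔ E))
  have hqE : (q : ℤ) ∣ discr E := by
    rw [← hdE]
    apply hd
    intro g hg
    change (e g).2 ∈ C
    rw [hfixE g]
    · exact one_mem C
    · intro b hb
      rw [IntermediateField.mem_fixingSubgroup_iff] at hg
      exact hg b ((mem_restrict _ b).2 hb)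
  obtain ⟨hNq, hqB⟩ := hN q hq hqE
  have hdeg : ∀ z ∈ B ⊔ E, (minpoly B z).natDegree ≤ m := by
    intro z hz
    have hint : IsIntegral B z := (qb_isIntegral z).tower_top
    have hsep : (minpoly B z).Separable := (minpoly.irreducible hint).separable
    have hgalB : IsGalois B Qb := inferInstance
    rw [← Polynomial.card_rootSet_eq_natDegree (K := Qb) hsep (IsAlgClosed.splits _),
      ← Set.toFinset_card, ← hcard]
    refine le_trans ?_ (Finset.card_image_le (s := (Finset.univ : Finset Gal(E/ℚ)))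
      (f := fun t => ((θ t ⟨z, hz⟩ : ↥(B ⊔ E)) : Qb)))
    apply Finset.card_le_card
    intro y hy
    rw [Set.mem_toFinset, Polynomial.mem_rootSet] at hy
    obtain ⟨σ, hσ⟩ := minpoly.exists_algEquiv_of_root' (L := Qb) hint.isAlgebraic hy.2
    rw [Finset.mem_image]
    refine ⟨(e (restrictNormalHom ↥(B ⊔ E) (σ.restrictScalars ℚ))).2, Finset.mem_univ _, ?_⟩
    rw [← hθ, hact, ← hσ]
    · rfl
    · rw [← hfixB]
      intro b hb
      apply Subtype.ext
      rw [hact]
      exact σ.commutes ⟨(b : Qb), hb⟩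
  -- the conjugates
  let x : Gal(E/ℚ) → Qb := fun t => ((θ t a : ↥(B ⊔ E)) : Qb)
  have hhtx : ∀ t, ht (x t) = ht α := by
    intro t
    obtain ⟨ρ, hρ⟩ := hlift (θ t)
    have h1 := hact ρ a
    rw [hρ] at h1
    change ht ((θ t a : ↥(B ⊔ E)) : Qb) = ht α
    rw [h1]
    exact ht_conj ρ α
  let f : Gal(E/ℚ) × Gal(E/ℚ) → Qb := fun p => if x p.1 = x p.2 then 1 else x p.1 - x p.2
  have hf0 : ∀ p, f p ≠ 0 := by
    intro p
    change (if x p.1 = x p.2 then (1 : Qb) else x p.1 - x p.2) ≠ 0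
    split_ifs with h
    · exact one_ne_zero
    · exact sub_ne_zero.2 h
  have hq0 : (q : Qb) ≠ 0 := by exact_mod_cast hq.ne_zero
  have hqR : (0 : ℝ) < q := by exact_mod_cast hq.pos
  have hD0 : (∏ p, f p) ^ m / (q : Qb) ≠ 0 :=
    div_ne_zero (pow_ne_zero _ (Finset.prod_ne_zero_iff.2 fun p _ => hf0 p)) hq0
  have hfV : ∀ (V : ValuationSubring Qb) p, V.valuation (f p) ≤
      max 1 (V.valuation (x p.1)) * max 1 (V.valuation (x p.2)) := by
    intro V p
    change V.valuation (if x p.1 = x p.2 then (1 : Qb) else x p.1 - x p.2) ≤ _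
    split_ifs with h
    · rw [map_one]
      exact one_le_mul (le_max_left _ _) (le_max_left _ _)
    · refine (Valuation.map_sub _ _ _).trans (max_le ?_ ?_)
      · calc V.valuation (x p.1) = V.valuation (x p.1) * 1 := (mul_one _).symm
          _ ≤ _ := mul_le_mul' (le_max_right _ _) (le_max_left _ _)
      · calc V.valuation (x p.2) = 1 * V.valuation (x p.2) := (one_mul _).symm
          _ ≤ _ := mul_le_mul' (le_max_left _ _) (le_max_right _ _)
  have hfφ : ∀ (φ : Qb →+* ℂ) p, ‖φ (f p)‖ ≤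
      2 * (max ‖φ (x p.1)‖ 1 * max ‖φ (x p.2)‖ 1) := by
    intro φ p
    have h1 : (1 : ℝ) ≤ max ‖φ (x p.1)‖ 1 := le_max_right _ _
    have h2 : (1 : ℝ) ≤ max ‖φ (x p.2)‖ 1 := le_max_right _ _
    have h3 : ‖φ (x p.1)‖ ≤ max ‖φ (x p.1)‖ 1 := le_max_left _ _
    have h4 : ‖φ (x p.2)‖ ≤ max ‖φ (x p.2)‖ 1 := le_max_left _ _
    change ‖φ (if x p.1 = x p.2 then (1 : Qb) else x p.1 - x p.2)‖ ≤ _
    split_ifs with h
    · rw [map_one, norm_one]
      nlinarith
    · rw [map_sub]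
      refine (norm_sub_le _ _).trans ?_
      nlinarith
  have hsp : ∀ V : ValuationSubring Qb, V.valuation (q : Qb) < 1 → ∃ p, V.valuation (f p) ^ m ≤
      V.valuation (q : Qb) *
        (max 1 (V.valuation (x p.1)) * max 1 (V.valuation (x p.2))) ^ m := by
    intro V hV
    have hQp : (centre (B ⊔ E) V).IsPrime := centre_prime _ V
    have hqQ := nat_mem_centre (B ⊔ E) V q hV
    obtain ⟨γ, hγ, hγH⟩ := hQ _ hQp hqQ
    have h1 : (e γ).1 = 1 := by
      rw [← hfixB]
      intro b hb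
      exact inertia_trivial ↥(B ⊔ E) B' hB'g q hq (by rw [hdB]; exact hqB) _ hQp hqQ γ hγ
        ⟨b, (mem_restrict _ b).2 hb⟩
    have h2 : ∃ u, θ ((e γ).2 * u) a ≠ θ u a := by
      by_contra hcon
      push Not at hcon
      exact hγH hcon
    obtain ⟨u, hu⟩ := h2
    have h3 : γ (θ u a) = θ ((e γ).2 * u) a := by
      conv_lhs => rw [hθ γ h1]
      rw [hθmul]
      rfl
    refine ⟨((e γ).2 * u, u), ?_⟩
    have h4 : f ((e γ).2 * u, u) = x ((e γ).2 * u) - x u := by
      change (if x ((e γ).2 * u) = x u then (1 : Qb) else x ((e γ).2 * u) - x u) = _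
      rw [if_neg]
      intro h5
      exact hu (Subtype.ext h5)
    rw [h4]
    have h5 := val_pair B (B ⊔ E) V q hq hqB hV m hdeg γ hγ (θ u a)
    rw [h3] at h5
    exact h5
  have hJ : ∀ {R : Type} [CommMonoid R] (g : Qb → R),
      ∏ j : Fin m × (Gal(E/ℚ) × Gal(E/ℚ)) × Bool,
        g (if j.2.2 then x j.2.1.1 else x j.2.1.2) =
      (∏ p : Gal(E/ℚ) × Gal(E/ℚ), (g (x p.1) * g (x p.2))) ^ m := by
    intro R _ g
    rw [Fintype.prod_prod_type]
    simp only
    rw [Finset.prod_const, Finset.card_univ, Fintype.card_fin]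
    congr 1
    rw [Fintype.prod_prod_type]
    refine Finset.prod_congr rfl fun p _ => ?_
    rw [Fintype.prod_bool]
    simp
  have hmain := height_prod_ge (J := Fin m × (Gal(E/ℚ) × Gal(E/ℚ)) × Bool)
    ((∏ p, f p) ^ m / (q : Qb)) hD0
    (fun j => if j.2.2 then x j.2.1.1 else x j.2.1.2) ((q : ℝ) / (2 ^ (m * m)) ^ m)
    (by positivity) ?_ ?_
  · have hsum : ∑ j : Fin m × (Gal(E/ℚ) × Gal(E/ℚ)) × Bool,
        ht (if j.2.2 then x j.2.1.1 else x j.2.1.2) = 2 * (m : ℝ) ^ 3 * ht α := by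
      have h1 : ∀ j : Fin m × (Gal(E/ℚ) × Gal(E/ℚ)) × Bool,
          ht (if j.2.2 then x j.2.1.1 else x j.2.1.2) = ht α := by
        intro j
        split_ifs
        · exact hhtx _
        · exact hhtx _
      rw [Finset.sum_congr rfl fun j _ => h1 j, Finset.sum_const, Finset.card_univ,
        Fintype.card_prod, Fintype.card_prod, Fintype.card_prod, Fintype.card_fin, hcard,
        Fintype.card_bool, nsmul_eq_mul]
      push_cast
      ring
    rw [hsum, Real.log_div hqR.ne' (by positivity), Real.log_pow, Real.log_pow] at hmain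
    have hmR : (0 : ℝ) < m := by exact_mod_cast hm0
    have hlog : Real.log N ≤ Real.log q :=
      Real.log_le_log (by exact_mod_cast hN0) (by exact_mod_cast hNq)
    have h2 : Real.log N / (2 * (m : ℝ) ^ 3) ≤ ht α + Real.log 2 / 2 := by
      rw [div_le_iff₀ (by positivity)]
      push_cast at hmain
      nlinarith
    linarith
  · intro V
    have h1 := hJ (fun z => max 1 (V.valuation z))
    rw [h1, map_div₀, map_pow, map_prod]
    have hqV : V.valuation (q : Qb) ≠ 0 := by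
      rw [Valuation.ne_zero_iff]
      exact hq0
    by_cases hV : V.valuation (q : Qb) < 1
    · obtain ⟨p₀, hp₀⟩ := hsp V hV
      rw [div_le_iff₀ (zero_lt_iff.mpr hqV), ← Finset.mul_prod_erase _ _ (Finset.mem_univ p₀),
        ← Finset.mul_prod_erase _ (fun p : Gal(E/ℚ) × Gal(E/ℚ) =>
          max 1 (V.valuation (x p.1)) * max 1 (V.valuation (x p.2))) (Finset.mem_univ p₀),
        mul_pow, mul_pow, mul_comm _ (V.valuation (q : Qb)), ← mul_assoc]
      apply mul_le_mul' hp₀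
      apply pow_le_pow_left₀ zero_le
      exact Finset.prod_le_prod' fun p _ => hfV V p
    · have h2 : V.valuation (q : Qb) = 1 := le_antisymm (nat_le_one V q) (not_lt.mp hV)
      rw [h2, div_one]
      apply pow_le_pow_left₀ zero_le
      exact Finset.prod_le_prod' fun p _ => hfV V p
  · intro φ
    have h1 := hJ (fun z => max ‖φ z‖ 1)
    rw [h1, map_div₀, map_pow, map_prod, norm_div, norm_pow, norm_prod, map_natCast,
      Complex.norm_natCast]
    have e1 : (q : ℝ) / (2 ^ (m * m)) ^ m * ((∏ p, ‖φ (f p)‖) ^ m / q) =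
        ((∏ p, ‖φ (f p)‖) / 2 ^ (m * m)) ^ m := by
      rw [div_pow]
      field_simp
    rw [e1]
    apply pow_le_pow_left₀ (by positivity)
    rw [div_le_iff₀ (by positivity)]
    calc ∏ p, ‖φ (f p)‖ ≤ ∏ p : Gal(E/ℚ) × Gal(E/ℚ),
          2 * (max ‖φ (x p.1)‖ 1 * max ‖φ (x p.2)‖ 1) :=
          Finset.prod_le_prod (fun p _ => norm_nonneg _) fun p _ => hfφ φ p
      _ = _ := by
          rw [Finset.prod_mul_distrib, Finset.prod_const, Finset.card_univ, Fintype.card_prod,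
            hcard, mul_comm]

end Pool.Agent.X285.NC
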