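import Mathlib
import Pool.Agent.X285.NC.Bound
import Pool.Agent.H391R2.R1.Fin
import Pool.Agent.X285.Stage

/-!
# One step of the construction
-/

set_option autoImplicit false

namespace Pool.Agent.X285.NC

open NumberField IntermediateField AlgEquiv
open Pool.Agent.H58P (Qb ht qb_isIntegral)
open Pool.Agent.H451R6 (GalG)

/-- Every embedding of a normal extension which has an embedding into `R` takes its values in
`R`. -/
theorem mem_range_of_normal {k E R T Ω : Type} [Field k] [Field E] [Field R] [Field T] [Field Ω]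
    [Algebra k E] [Normal k E] [Algebra k R] [Algebra R T] [Algebra k T] [IsScalarTower k R T]
    [Algebra k Ω] (j : E →ₐ[k] R) (ι : E →ₐ[k] Ω) (Φ : Ω →ₐ[k] T) (x : E) :
    ∃ r : R, algebraMap R T r = Φ (ι x) := by
  have hint : IsIntegral k x := (Normal.isIntegral inferInstance x)
  have hsp : ((minpoly k x).map (algebraMap k E)).Splits := Normal.splits inferInstance x
  have h1 : ((minpoly k x).map (algebraMap k R)).Splits := by
    have := hsp.map (j : E →+* R)
    rwa [Polynomial.map_map, AlgHom.comp_algebraMap] at this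
  have h2 : (minpoly k x).map (algebraMap k T) = ((minpoly k x).map (algebraMap k R)).map
      (algebraMap R T) := by
    rw [Polynomial.map_map, ← IsScalarTower.algebraMap_eq]
  have h3 : ((minpoly k x).map (algebraMap k T)).eval (Φ (ι x)) = 0 := by
    rw [Polynomial.eval_map_algebraMap, Polynomial.aeval_algHom_apply,
      Polynomial.aeval_algHom_apply, minpoly.aeval, map_zero, map_zero]
  rw [h2, h1.eq_prod_roots, Polynomial.map_mul, Polynomial.eval_mul, Polynomial.map_C,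
    Polynomial.eval_C, Polynomial.map_multiset_prod, Polynomial.eval_multiset_prod] at h3
  have h4 : ((minpoly k x).map (algebraMap k R)).leadingCoeff ≠ 0 := by
    rw [Polynomial.leadingCoeff_map]
    rw [(minpoly.monic hint).leadingCoeff, map_one]
    exact one_ne_zero
  rcases mul_eq_zero.1 h3 with h5 | h5
  · exact absurd ((map_eq_zero _).1 h5) h4
  · rw [Multiset.prod_eq_zero_iff, Multiset.mem_map] at h5
    obtain ⟨g, hg, hg0⟩ := h5
    rw [Multiset.mem_map] at hg
    obtain ⟨g', hg', rfl⟩ := hg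
    rw [Multiset.mem_map] at hg'
    obtain ⟨r, _, rfl⟩ := hg'
    refine ⟨r, ?_⟩
    rw [Polynomial.map_sub, Polynomial.map_X, Polynomial.map_C, Polynomial.eval_sub,
      Polynomial.eval_X, Polynomial.eval_C, sub_eq_zero] at hg0
    exact hg0.symm

/-- Totally split primes do not divide the discriminant. -/
theorem not_dvd_of_split (L : Type) [Field L] [NumberField L] [IsGalois ℚ L] (p : ℕ)
    (hp : p.Prime) (hs : ((Ideal.span {(p : ℤ)}).primesOver (𝓞 L)).ncard = Module.finrank ℚ L) :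
    ¬ (p : ℤ) ∣ discr L := by
  have hpp : Prime (p : ℤ) := Nat.prime_iff_prime_int.1 hp
  have hprime : (Ideal.span {(p : ℤ)}).IsPrime := (Ideal.span_singleton_prime hpp.ne_zero).2 hpp
  have hmax : (Ideal.span {(p : ℤ)}).IsMaximal :=
    hprime.isMaximal (by rw [Ne, Ideal.span_singleton_eq_bot]; exact hpp.ne_zero)
  rw [not_dvd_discr_iff_forall_mem L (𝓞 L) hpp]
  intro Q hQp hpQ
  have hQl : Q.LiesOver (Ideal.span {(p : ℤ)}) := (Ideal.liesOver_span_iff hQp.ne_top hpp).mpr hpQ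
  have e1 := Ideal.ncard_primesOver_mul_ramificationIdxIn_mul_inertiaDegIn
    (Ideal.span {(p : ℤ)}) (𝓞 L) Gal(L/ℚ)
  have e2 : Nat.card Gal(L/ℚ) = Module.finrank ℚ L := IsGalois.card_aut_eq_finrank ℚ L
  rw [hs, e2] at e1
  have hpos : 0 < Module.finrank ℚ L := Module.finrank_pos
  have e3 : (Ideal.span {(p : ℤ)}).ramificationIdxIn (𝓞 L) = 1 := by
    have : Module.finrank ℚ L * ((Ideal.span {(p : ℤ)}).ramificationIdxIn (𝓞 L) *
        (Ideal.span {(p : ℤ)}).inertiaDegIn (𝓞 L)) = Module.finrank ℚ L * 1 := by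
      rw [e1, mul_one]
    exact Nat.eq_one_of_mul_eq_one_right (Nat.eq_of_mul_eq_mul_left hpos this)
  have e4 : Q.ramificationIdx ℤ = 1 := by
    rw [← Ideal.ramificationIdxIn_eq_ramificationIdx (Ideal.span {(p : ℤ)}) Q Gal(L/ℚ), e3]
  exact Ideal.ramificationIdx_eq_one_iff.1 e4

/-- The groups which are Galois groups of totally real extensions of `ℚ` in which any given finite
set of primes is totally split. -/
def LocReal (W : Type) [Group W] : Prop :=
  ∀ (V : Type) [Fintype V] (pp : V → ℕ) [∀ v, Fact (pp v).Prime], Function.Injective pp →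
    ∃ (L : Type) (_ : Field L) (_ : Algebra ℚ L) (_ : FiniteDimensional ℚ L) (_ : IsGalois ℚ L),
      Nonempty (W ≃* (L ≃ₐ[ℚ] L)) ∧ Nonempty (L →+* ℝ) ∧
      ∀ v, Nonempty (L →+* ℚ_[pp v])

/-- Real embeddings only. -/
def RealIn (E : IntermediateField ℚ Qb) : Prop := ∀ (Φ : Qb →+* ℂ), ∀ x ∈ E, (Φ x).im = 0

/-- All embeddings into the algebraic closure of `ℚ_p` take values in `ℚ_p`. -/
def SplitIn (p : ℕ) [Fact p.Prime] (E : IntermediateField ℚ Qb) : Prop :=
  ∀ (Φ : Qb →+* AlgebraicClosure ℚ_[p]), ∀ x ∈ E,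
    Φ x ∈ (algebraMap ℚ_[p] (AlgebraicClosure ℚ_[p])).range

theorem step (W : Type) [Group W] (hW : LocReal W) (i : ℕ)
    (B : IntermediateField ℚ Qb) (hB : Pool.Agent.H451R6.FG B) :
    ∃ E : IntermediateField ℚ Qb, Pool.Agent.H451R6.FG E ∧ B ⊓ E = ⊥ ∧
      (Nonempty (W ≃* GalG E) ∧ RealIn E ∧ (∀ (p : ℕ) [Fact p.Prime], p ≤ i → SplitIn p E) ∧
      ∀ α ∈ B ⊔ E, α ∉ B → (i : ℝ) ≤ ht α) := by
  classical
  have hB1 : FiniteDimensional ℚ B := hB.1
  have hBn : NumberField B := ⟨⟩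
  -- the order of `W`
  have hempty : ∀ v : Empty, Fact (Nat.Prime ((fun _ => 2 : Empty → ℕ) v)) := fun v => v.elim
  obtain ⟨L₀, a1, a2, a3, a4, ⟨e₀⟩, -, -⟩ := hW Empty (fun _ => 2) (fun v => v.elim)
  have hm0 : 0 < Nat.card W := by
    rw [Nat.card_congr e₀.toEquiv, IsGalois.card_aut_eq_finrank]
    exact Module.finrank_pos
  obtain ⟨N, hN⟩ : ∃ N : ℕ, 0 < N ∧
      (i : ℝ) ≤ Real.log N / (2 * (Nat.card W : ℝ) ^ 3) - Real.log 2 / 2 := by
    obtain ⟨N, hN⟩ := exists_nat_gt
      (Real.exp ((i + Real.log 2 / 2) * (2 * (Nat.card W : ℝ) ^ 3)))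
    have hN0 : (0 : ℝ) < N := (Real.exp_pos _).trans hN
    refine ⟨N, by exact_mod_cast hN0, ?_⟩
    have hmR : (0 : ℝ) < Nat.card W := by exact_mod_cast hm0
    have h1 : (i + Real.log 2 / 2) * (2 * (Nat.card W : ℝ) ^ 3) ≤ Real.log N := by
      rw [Real.le_log_iff_exp_le hN0]
      exact hN.le
    have h2 : i + Real.log 2 / 2 ≤ Real.log N / (2 * (Nat.card W : ℝ) ^ 3) := by
      rw [le_div_iff₀ (by positivity)]
      exact h1
    linarith
  let S : Finset ℕ := ((Finset.range (N + i + 1)) ∪ (discr B).natAbs.primeFactors).filter Nat.Prime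
  have hfact : ∀ v : S, Fact ((v : ℕ)).Prime := fun v => ⟨(Finset.mem_filter.1 v.2).2⟩
  obtain ⟨L, iL, algL, hfd, hgal, ⟨e⟩, ⟨fR⟩, hfV⟩ := hW S (fun v => (v : ℕ))
    (Subtype.val_injective)
  have hchar : CharZero L := algebraRat.charZero L
  obtain rfl : algL = DivisionRing.toRatAlgebra := Subsingleton.elim _ _
  have hnf : NumberField L := { to_charZero := hchar, to_finiteDimensional := hfd }
  have hsplit : ∀ p ∈ S, ((Ideal.span {(p : ℤ)}).primesOver (𝓞 L)).ncard =
      Module.finrank ℚ L := by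
    intro p hp
    have : Fact p.Prime := ⟨(Finset.mem_filter.1 hp).2⟩
    obtain ⟨f⟩ := hfV ⟨p, hp⟩
    exact Pool.Agent.H391R2.R1.split_of_embeds L p f
  let f : L →ₐ[ℚ] Qb := IsAlgClosed.lift
  have hfd : FiniteDimensional ℚ f.fieldRange :=
    LinearEquiv.finiteDimensional f.equivFieldRange.toLinearEquiv
  have hgal' : IsGalois ℚ f.fieldRange := IsGalois.of_algEquiv f.equivFieldRange
  have hE : Pool.Agent.H451R6.FG f.fieldRange := ⟨hfd, hgal'⟩
  have hEn : NumberField f.fieldRange := ⟨⟩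
  have hd : discr f.fieldRange = discr L := (discr_eq_discr_of_algEquiv _ f.equivFieldRange).symm
  have hnd : ∀ p ∈ S, ¬ (p : ℤ) ∣ discr f.fieldRange := by
    intro p hp
    rw [hd]
    exact not_dvd_of_split L p (Finset.mem_filter.1 hp).2 (hsplit p hp)
  have hlarge : ∀ q : ℕ, q.Prime → (q : ℤ) ∣ discr f.fieldRange → N ≤ q ∧ ¬ (q : ℤ) ∣ discr B := by
    intro q hq hqd
    constructor
    · by_contra hcon
      refine hnd q ?_ hqd
      refine Finset.mem_filter.2 ⟨Finset.mem_union_left _ ?_, hq⟩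
      rw [Finset.mem_range]
      omega
    · intro hqB
      refine hnd q ?_ hqd
      refine Finset.mem_filter.2 ⟨Finset.mem_union_right _ ?_, hq⟩
      rw [Nat.mem_primeFactors]
      refine ⟨hq, ?_, Int.natAbs_ne_zero.mpr (discr_ne_zero B)⟩
      rwa [← Int.natCast_dvd]
  have hBE : B ⊓ f.fieldRange = ⊥ := by
    have hBg : IsGalois ℚ B := hB.2
    have hcop : IsCoprime (discr B) (discr f.fieldRange) := by
      rw [Int.isCoprime_iff_gcd_eq_one, Int.gcd_def]
      by_contra hcon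
      obtain ⟨q, hq, hq1, hq2⟩ := Nat.Prime.not_coprime_iff_dvd.1 hcon
      have h1 : (q : ℤ) ∣ discr B := Int.natCast_dvd.2 hq1
      have h2 : (q : ℤ) ∣ discr f.fieldRange := Int.natCast_dvd.2 hq2
      exact (hlarge q hq h2).2 h1
    have hfd' : FiniteDimensional ℚ ↥(B ⊓ f.fieldRange) :=
      FiniteDimensional.of_injective (inclusion (inf_le_left : B ⊓ f.fieldRange ≤ B)).toLinearMap
        (inclusion (inf_le_left : B ⊓ f.fieldRange ≤ B)).injective
    have hnn : NumberField ↥(B ⊓ f.fieldRange) := ⟨⟩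
    let _ : Algebra ↥(B ⊓ f.fieldRange) B :=
      (inclusion (inf_le_left : B ⊓ f.fieldRange ≤ B)).toRingHom.toAlgebra
    let _ : Algebra ↥(B ⊓ f.fieldRange) f.fieldRange :=
      (inclusion (inf_le_right : B ⊓ f.fieldRange ≤ f.fieldRange)).toRingHom.toAlgebra
    have hu : IsUnit (discr ↥(B ⊓ f.fieldRange)) :=
      hcop.isUnit_of_dvd' (NumberField.discr_dvd_discr _ _) (NumberField.discr_dvd_discr _ _)
    by_contra hne
    have hlt : 1 < Module.finrank ℚ ↥(B ⊓ f.fieldRange) := by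
      refine Nat.one_lt_iff_ne_zero_and_ne_one.mpr ⟨Module.finrank_pos.ne', ?_⟩
      rwa [ne_eq, IntermediateField.finrank_eq_one_iff]
    exact Int.isUnit_iff_abs_eq.not.mpr (by linarith [abs_discr_gt_two hlt]) hu
  refine ⟨f.fieldRange, hE, hBE, ⟨e.trans (AlgEquiv.autCongr f.equivFieldRange)⟩, ?_, ?_, ?_⟩
  · rintro Φ _ ⟨x, rfl⟩
    obtain ⟨r, hr⟩ := mem_range_of_normal (k := ℚ) (fR.toRatAlgHom) f (Φ.toRatAlgHom) x
    change (Φ.toRatAlgHom (f x)).im = 0
    rw [← hr]
    exact Complex.ofReal_im r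
  · intro p hp hpi Φ
    rintro _ ⟨x, rfl⟩
    have hpS : p ∈ S := Finset.mem_filter.2 ⟨Finset.mem_union_left _
      (Finset.mem_range.2 (by omega)), hp.out⟩
    obtain ⟨g⟩ := hfV ⟨p, hpS⟩
    obtain ⟨r, hr⟩ := mem_range_of_normal (k := ℚ) (g.toRatAlgHom) f (Φ.toRatAlgHom) x
    exact ⟨r, hr⟩
  · intro α hα hαB
    have h1 := ht_ge B f.fieldRange hB hE hBE N hN.1 hlarge α hα hαB
    have h2 : Module.finrank ℚ f.fieldRange = Nat.card W := by
      rw [Nat.card_congr e.toEquiv, IsGalois.card_aut_eq_finrank]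
      exact f.equivFieldRange.toLinearEquiv.finrank_eq.symm
    rw [h2] at h1
    exact hN.2.trans h1

end Pool.Agent.X285.NC
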