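import Mathlib
import Pool.Agent.X285.NC.Step
import Pool.Agent.X285.Tower

/-!
# The tower
-/

set_option autoImplicit false

namespace Pool.Agent.X285.NC

open NumberField IntermediateField AlgEquiv
open Pool.Agent.H58P (Qb ht qb_isIntegral)
open Pool.Agent.H451R6 (GalG glue_all)

/-- Towers in which each step depends on the previous ones. -/
theorem exists_tower {k Ω : Type} [Field k] [PerfectField k] [Field Ω] [Algebra k Ω]
    [Algebra.IsAlgebraic k Ω] (M : IntermediateField k Ω) (hM : Pool.Agent.H451R6.FG M)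
    (Q : ℕ → IntermediateField k Ω → IntermediateField k Ω → Prop)
    (C : ∀ i (B : IntermediateField k Ω), Pool.Agent.H451R6.FG B →
      ∃ E : IntermediateField k Ω, Pool.Agent.H451R6.FG E ∧ B ⊓ E = ⊥ ∧ Q i B E) :
    ∃ B E : ℕ → IntermediateField k Ω, B 0 = M ∧ (∀ i, B (i + 1) = B i ⊔ E i) ∧
      (∀ i, Pool.Agent.H451R6.FG (B i)) ∧
      ∀ i, Pool.Agent.H451R6.FG (E i) ∧ B i ⊓ E i = ⊥ ∧ Q i (B i) (E i) := by
  classical
  choose c hc using C
  let B : ℕ → {B : IntermediateField k Ω // Pool.Agent.H451R6.FG B} := fun n =>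
    Nat.rec ⟨M, hM⟩ (fun i b => ⟨b.1 ⊔ c i b.1 b.2, b.2.sup (hc i b.1 b.2).1⟩) n
  exact ⟨fun i => (B i).1, fun i => c i (B i).1 (B i).2, rfl, fun i => rfl, fun i => (B i).2,
    fun i => hc i (B i).1 (B i).2⟩

theorem restrict_eq_one {k Ω : Type} [Field k] [Field Ω] [Algebra k Ω]
    (B : IntermediateField k Ω) [IsGalois k B] (σ : Gal(Ω/k)) (h : σ ∈ B.fixingSubgroup) :
    restrictNormalHom B σ = 1 := by
  rw [← MonoidHom.mem_ker, restrictNormalHom_ker]
  exact h

theorem mem_of_restrict {k Ω : Type} [Field k] [Field Ω] [Algebra k Ω]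
    (B : IntermediateField k Ω) [IsGalois k B] (σ : Gal(Ω/k)) (h : restrictNormalHom B σ = 1) :
    σ ∈ B.fixingSubgroup := by
  rw [← restrictNormalHom_ker]
  exact h

/-- The homomorphisms attached to a tower. -/
theorem homs_of_tower {k Ω : Type} [Field k] [Field Ω] [Algebra k Ω] [IsGalois k Ω]
    (B E : ℕ → IntermediateField k Ω) (hB : ∀ i, B (i + 1) = B i ⊔ E i)
    (hBf : ∀ i, Pool.Agent.H451R6.FG (B i)) (hEf : ∀ i, Pool.Agent.H451R6.FG (E i))
    (hd : ∀ i, B i ⊓ E i = ⊥) (W : ℕ → Type) [∀ i, Group (W i)] (e : ∀ i, W i ≃* GalG (E i)) :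
    ∃ q : ∀ i, Gal(Ω/k) →* W i, (∀ i, IsOpen ((q i).ker : Set Gal(Ω/k))) ∧
      (∀ i, (q i).ker = (E i).fixingSubgroup) ∧
      ∀ τ : ∀ i, W i, ∃ σ ∈ (B 0).fixingSubgroup, ∀ i, q i σ = τ i := by
  have i1 : ∀ i, IsGalois k (B i) := fun i => (hBf i).2
  have i2 : ∀ i, IsGalois k (E i) := fun i => (hEf i).2
  have i3 : ∀ i, FiniteDimensional k (E i) := fun i => (hEf i).1
  have i4 : FiniteDimensional k (B 0) := (hBf 0).1
  let q : ∀ i, Gal(Ω/k) →* W i := fun i =>
    (e i).symm.toMonoidHom.comp (restrictNormalHom (F := k) (K₁ := Ω) (E i))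
  have hker : ∀ i, (q i).ker = (E i).fixingSubgroup := by
    intro i
    ext σ
    rw [MonoidHom.mem_ker]
    constructor
    · intro h
      apply mem_of_restrict
      have h1 : (e i).symm (restrictNormalHom (E i) σ) = 1 := h
      rwa [map_eq_one_iff _ (e i).symm.injective] at h1
    · intro h
      change (e i).symm (restrictNormalHom (E i) σ) = 1
      rw [restrict_eq_one _ _ h, map_one]
  refine ⟨q, fun i => ?_, hker, fun τ => ?_⟩
  · rw [hker]
    exact (E i).fixingSubgroup_isOpen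
  · obtain ⟨σ, h1, h2⟩ := glue_all B E hB hd 1 (fun i => e i (τ i))
    refine ⟨σ, mem_of_restrict _ _ h1, fun i => ?_⟩
    change (e i).symm (restrictNormalHom (E i) σ) = τ i
    rw [h2, MulEquiv.symm_apply_apply]

/-- Northcott's property for the union of a tower. -/
theorem northcott_tower (B : ℕ → IntermediateField ℚ Qb) (hB : Monotone B)
    (hf : ∀ i, Pool.Agent.H451R6.FG (B i))
    (h : ∀ i, ∀ α ∈ B (i + 1), α ∉ B i → (i : ℝ) ≤ ht α) (R : ℝ) :
    {α : Qb | (∃ i, α ∈ B i) ∧ ht α ≤ R}.Finite := by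
  have hmem : ∀ (x : Qb) (j : ℕ), x ∈ B j → ∀ N : ℕ, ht x < N → x ∈ B N := by
    intro x j hj N hN
    induction j with
    | zero => exact hB (Nat.zero_le N) hj
    | succ j ih =>
      by_cases h1 : x ∈ B j
      · exact ih h1
      · have h2 := h j x hj h1
        have h3 : j < N := by exact_mod_cast h2.trans_lt hN
        exact hB h3 hj
  obtain ⟨N, hN⟩ := exists_nat_gt R
  have hfd : FiniteDimensional ℚ (B N) := (hf N).1
  have hnf : NumberField (B N) := ⟨⟩
  refine (Pool.Agent.H58W.northcott (Module.finrank ℚ (B N)) R).subset ?_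
  rintro α ⟨⟨j, hj⟩, hαR⟩
  have h1 := hmem α j hj N (hαR.trans_lt hN)
  refine ⟨?_, hαR⟩
  have h2 : minpoly ℚ α = minpoly ℚ (⟨α, h1⟩ : B N) := by
    rw [← minpoly.algebraMap_eq (algebraMap (B N) Qb).injective]
    rfl
  rw [h2]
  exact minpoly.natDegree_le _

/-- `F` has only real embeddings. -/
theorem real_iSup (E : ℕ → IntermediateField ℚ Qb) (hE : ∀ i, RealIn (E i)) :
    RealIn (⨆ i, E i) := by
  intro Φ x hx
  let R : IntermediateField ℚ Qb :=
    ((⊥ : IntermediateField ℝ ℂ).restrictScalars ℚ).comap Φ.toRatAlgHom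
  have h1 : (⨆ i, E i) ≤ R := by
    apply iSup_le
    intro i y hy
    change Φ y ∈ (⊥ : IntermediateField ℝ ℂ)
    rw [IntermediateField.mem_bot]
    exact ⟨(Φ y).re, Complex.ext rfl (by rw [hE i Φ y hy]; rfl)⟩
  have h2 : Φ x ∈ (⊥ : IntermediateField ℝ ℂ) := h1 hx
  rw [IntermediateField.mem_bot] at h2
  obtain ⟨r, hr⟩ := h2
  rw [← hr]
  exact Complex.ofReal_im r

/-- Local degrees. -/
theorem local_iSup (p : ℕ) [Fact p.Prime] (E : ℕ → IntermediateField ℚ Qb)
    (B : IntermediateField ℚ Qb) (hB : Pool.Agent.H451R6.FG B)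
    (hE : ∀ i, E i ≤ B ∨ SplitIn p (E i)) (Φ : Qb →+* AlgebraicClosure ℚ_[p]) :
    FiniteDimensional ℚ_[p] (IntermediateField.adjoin ℚ_[p]
      (Φ '' ((⨆ i, E i : IntermediateField ℚ Qb) : Set Qb))) := by
  have hfd : FiniteDimensional ℚ B := hB.1
  have hnf : NumberField B := ⟨⟩
  obtain ⟨θ, hθ⟩ := Field.exists_primitive_element ℚ B
  let N : IntermediateField ℚ_[p] (AlgebraicClosure ℚ_[p]) :=
    IntermediateField.adjoin ℚ_[p] {Φ (θ : Qb)}
  let R : IntermediateField ℚ Qb := (N.restrictScalars ℚ).comap Φ.toRatAlgHom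
  have hRmem : ∀ x : Qb, x ∈ R ↔ Φ x ∈ N := fun x => Iff.rfl
  have hθR : (θ : Qb) ∈ R := by
    rw [hRmem]
    exact IntermediateField.mem_adjoin_simple_self _ _
  have hBR : B ≤ R := by
    intro x hx
    have h1 : (⟨x, hx⟩ : B) ∈ IntermediateField.adjoin ℚ {θ} := by rw [hθ]; trivial
    have h2 : IntermediateField.adjoin ℚ {θ} ≤ R.comap B.val := by
      rw [IntermediateField.adjoin_simple_le_iff]
      exact hθR
    exact h2 h1
  have h1 : (⨆ i, E i) ≤ R := by
    apply iSup_le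
    intro i
    rcases hE i with h | h
    · exact h.trans hBR
    · intro y hy
      rw [hRmem]
      obtain ⟨r, hr⟩ := h Φ y hy
      rw [← hr]
      exact IntermediateField.algebraMap_mem _ r
  have h2 : IntermediateField.adjoin ℚ_[p]
      (Φ '' ((⨆ i, E i : IntermediateField ℚ Qb) : Set Qb)) ≤ N := by
    rw [IntermediateField.adjoin_le_iff]
    rintro _ ⟨x, hx, rfl⟩
    exact (hRmem x).1 (h1 hx)
  have hint : IsIntegral ℚ_[p] (Φ (θ : Qb)) :=
    (AlgebraicClosure.isAlgebraic ℚ_[p]).isAlgebraic _ |>.isIntegral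
  have h3 : FiniteDimensional ℚ_[p] N := IntermediateField.adjoin.finiteDimensional hint
  exact FiniteDimensional.of_injective (inclusion h2).toLinearMap (inclusion h2).injective

/-- The main construction. -/
theorem main (W : ℕ → Type) [∀ i, Group (W i)] (hW : ∀ i, LocReal (W i))
    (M : IntermediateField ℚ Qb) (hM : Pool.Agent.H451R6.FG M) :
    ∃ (q : ∀ i, Gal(Qb/ℚ) →* W i) (T : IntermediateField ℚ Qb),
      (∀ i, IsOpen ((q i).ker : Set Gal(Qb/ℚ))) ∧
      (∀ τ : ∀ i, W i, ∃ σ ∈ M.fixingSubgroup, ∀ i, q i σ = τ i) ∧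
      (∀ x : Qb, (∀ σ : Gal(Qb/ℚ), (∀ i, q i σ = 1) → σ x = x) → x ∈ T) ∧
      (∀ R : ℝ, {α : Qb | α ∈ T ∧ ht α ≤ R}.Finite) ∧ RealIn T ∧
      ∀ (p : ℕ) [Fact p.Prime] (Φ : Qb →+* AlgebraicClosure ℚ_[p]),
        FiniteDimensional ℚ_[p] (IntermediateField.adjoin ℚ_[p] (Φ '' (T : Set Qb))) := by
  have hQb : IsGalois ℚ Qb := gal_Qb
  obtain ⟨B, E, hB0, hB, hBf, hE⟩ := exists_tower M hM
    (fun i B E => Nonempty (W i ≃* GalG E) ∧ RealIn E ∧
      (∀ (p : ℕ) [Fact p.Prime], p ≤ i → SplitIn p E) ∧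
      ∀ α ∈ B ⊔ E, α ∉ B → (i : ℝ) ≤ ht α) (fun i B hB => step (W i) (hW i) i B hB)
  have hmono : Monotone B := monotone_nat_of_le_succ fun i => by rw [hB i]; exact le_sup_left
  obtain ⟨q, hq1, hq2, hq3⟩ := homs_of_tower B E hB hBf (fun i => (hE i).1)
    (fun i => (hE i).2.1) W (fun i => Classical.choice (hE i).2.2.1)
  rw [hB0] at hq3
  have hEB : ∀ i j, i < j → E i ≤ B j := fun i j hij =>
    (show E i ≤ B (i + 1) by rw [hB i]; exact le_sup_right).trans (hmono hij)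
  have hTB : ∀ x ∈ (⨆ i, E i : IntermediateField ℚ Qb), ∃ i, x ∈ B i := by
    intro x hx
    have h1 : (⨆ i, E i) ≤ ⨆ i, B i :=
      iSup_le fun i => (hEB i (i + 1) (Nat.lt_succ_self i)).trans (le_iSup B (i + 1))
    have h2 := h1 hx
    rw [← SetLike.mem_coe, IntermediateField.coe_iSup_of_directed hmono.directed_le,
      Set.mem_iUnion] at h2
    exact h2
  refine ⟨q, ⨆ i, E i, hq1, hq3, fun x hx => ?_, fun R => ?_,
    real_iSup E fun i => (hE i).2.2.2.1, fun p hp Φ => ?_⟩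
  · rw [← InfiniteGalois.fixedField_fixingSubgroup (⨆ i, E i), mem_fixedField_iff]
    intro σ hσ
    apply hx
    intro i
    rw [← MonoidHom.mem_ker, hq2]
    exact (fixingSubgroup_le (le_iSup E i)) hσ
  · refine (northcott_tower B hmono hBf (fun i α hα hα' => ?_) R).subset
      fun α hα => ⟨hTB α hα.1, hα.2⟩
    rw [hB i] at hα
    exact (hE i).2.2.2.2.2 α hα hα'
  · refine local_iSup p E (B p) (hBf p) (fun i => ?_) Φ
    rcases lt_or_ge i p with h | h
    · exact Or.inl (hEB i p h)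
    · exact Or.inr ((hE i).2.2.2.2.1 p h)

end Pool.Agent.X285.NC
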