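import Mathlib
import Pool.Agent.X285.NC.Tow
import Pool.Agent.X285.NC.Flds
import Pool.Agent.X285.PA.Fin

/-!
# The final theorem
-/

set_option autoImplicit false

namespace Pool.Agent.X285.NC

open NumberField IntermediateField AlgEquiv
open Pool.Agent.H58P (Qb ht qb_isIntegral absLogHeight₁_general)
open Pool.Agent.H391R2
open Pool.Agent.X285.PA (exists_enum le_nc)

/-- The Northcott property. -/
def Northcott (F : Type) [Field F] [CharZero F] : Prop :=
  ∀ R : ℝ, {x : F | absLogHeight₁ x ≤ R}.Finite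

/-- Finite local degrees at all primes. -/
def FiniteLocalDegrees (F : Type) [Field F] : Prop :=
  ∀ (p : ℕ) [Fact p.Prime] (σ : F →+* AlgebraicClosure ℚ_[p]),
    FiniteDimensional ℚ_[p] (IntermediateField.adjoin ℚ_[p] (Set.range σ))

/-- Extensions of embeddings to `Qb`. -/
theorem extend (F : Type) [Field F] [CharZero F] (j : F →+* Qb) (C : Type) [Field C]
    [IsAlgClosed C] (σ : F →+* C) : ∃ Φ : Qb →+* C, ∀ x, Φ (j x) = σ x := by
  let _ : Algebra F Qb := j.toAlgebra
  let _ : Algebra F C := σ.toAlgebra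
  have hst : IsScalarTower ℚ F Qb := IsScalarTower.of_algebraMap_eq' (Subsingleton.elim _ _)
  have halg : Algebra.IsAlgebraic F Qb :=
    ⟨fun x => ((qb_isIntegral x).tower_top (A := F)).isAlgebraic⟩
  let Φ : Qb →ₐ[F] C := IsAlgClosed.lift
  exact ⟨Φ, fun x => Φ.commutes x⟩

theorem northcott_of_embed (T : IntermediateField ℚ Qb)
    (hN : ∀ R : ℝ, {α : Qb | α ∈ T ∧ ht α ≤ R}.Finite)
    (F : Type) [Field F] [CharZero F] (j : F →+* Qb) (hj : ∀ x, j x ∈ T) : Northcott F := by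
  intro R
  refine ((hN R).preimage (j.injective.injOn)).subset ?_
  intro x hx
  refine ⟨hj x, ?_⟩
  have hint : IsIntegral ℚ x := by
    have h1 : IsIntegral ℚ (j.toRatAlgHom x) := qb_isIntegral (j x)
    exact (isIntegral_algHom_iff j.toRatAlgHom j.injective).1 h1
  have hfd := IntermediateField.adjoin.finiteDimensional hint
  have hnf : NumberField (IntermediateField.adjoin ℚ {x}) := ⟨⟩
  rw [← absLogHeight₁_general x hint j]
  exact hx

theorem real_of_embed (T : IntermediateField ℚ Qb) (hT : RealIn T)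
    (F : Type) [Field F] [CharZero F] (j : F →+* Qb) (hj : ∀ x, j x ∈ T) : IsTotallyReal F := by
  refine ⟨fun v => ?_⟩
  obtain ⟨Φ, hΦ⟩ := extend F j ℂ v.embedding
  rw [InfinitePlace.isReal_iff, NumberField.ComplexEmbedding.isReal_iff]
  ext x
  rw [NumberField.ComplexEmbedding.conjugate_coe_eq, ← hΦ x]
  exact Complex.conj_eq_iff_im.2 (hT Φ (j x) (hj x))

theorem local_of_embed (T : IntermediateField ℚ Qb)
    (hT : ∀ (p : ℕ) [Fact p.Prime] (Φ : Qb →+* AlgebraicClosure ℚ_[p]),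
      FiniteDimensional ℚ_[p] (IntermediateField.adjoin ℚ_[p] (Φ '' (T : Set Qb))))
    (F : Type) [Field F] [CharZero F] (j : F →+* Qb) (hj : ∀ x, j x ∈ T) :
    FiniteLocalDegrees F := by
  intro p hp σ
  obtain ⟨Φ, hΦ⟩ := extend F j (AlgebraicClosure ℚ_[p]) σ
  have h1 : IntermediateField.adjoin ℚ_[p] (Set.range σ) ≤
      IntermediateField.adjoin ℚ_[p] (Φ '' (T : Set Qb)) := by
    apply IntermediateField.adjoin.mono
    rintro _ ⟨x, rfl⟩
    exact ⟨j x, hj x, hΦ x⟩
  have h2 := hT p Φ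
  exact FiniteDimensional.of_injective (inclusion h1).toLinearMap (inclusion h1).injective

theorem locReal_wr (G : Type) [Group G] [Finite G] :
    ∃ n₀ : ℕ, ∀ n ≥ n₀, 3 ≤ n ∧ LocReal (Wr G n) := by
  obtain ⟨n₀, hn₀⟩ := Pool.Agent.H391R2.R1.wreath_local_gal G
  exact ⟨n₀, fun n hn => hn₀ n hn⟩

/-- The coordinate of an element of the base group. -/
noncomputable def coord (G : Type) [Group G] (n : ℕ) (j : Fin n) :
    (SemidirectProduct.rightHom : Wr G n →* Equiv.Perm (Fin n)).ker →* G :=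
  MonoidHom.mk' (fun x => (x : Wr G n).left j) (fun a b => by
    change ((a : Wr G n) * (b : Wr G n)).left j = _
    have ha : (a : Wr G n).right = 1 := a.2
    rw [wr_mul_left, ha]
    rfl)

theorem coord_surjective (G : Type) [Group G] (n : ℕ) (j : Fin n) :
    Function.Surjective (coord G n j) := by
  intro a
  exact ⟨⟨SemidirectProduct.inl (fun _ => a), rfl⟩, rfl⟩

/-- The final theorem. -/
theorem final : ∃ N : ℕ → ℕ, ∀ n : ℕ → ℕ, (∀ i, N i ≤ n i) → ∀ (M : Type) [Field M]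
    [NumberField M],
    ∃ (F : Type) (_ : Field F) (_ : CharZero F) (_ : IsGalois ℚ F)
      (e : (F ≃ₐ[ℚ] F) ≃* ∀ i, Equiv.Perm (Fin (n i))),
      (∀ i, IsOpen {σ : F ≃ₐ[ℚ] F | e σ i = 1}) ∧
      (Northcott F ∧ IsTotallyReal F ∧ FiniteLocalDegrees F) ∧
      (∀ E : IntermediateField ℚ F, Nonempty (E →ₐ[ℚ] M) → E = ⊥) ∧
      ∀ (ι : Type) [Countable ι] (H : ι → Type) [∀ i, Group (H i)] [∀ i, Finite (H i)],
        ∃ (F' : Type) (_ : Field F') (_ : CharZero F') (_ : Algebra F F') (_ : IsGalois F F'),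
          Nonempty ((∀ i, H i) ≃* (F' ≃ₐ[F] F')) ∧
          (Northcott F' ∧ IsTotallyReal F' ∧ FiniteLocalDegrees F') := by
  classical
  obtain ⟨t, ht⟩ := exists_enum
  choose N hN using fun i => locReal_wr (t i).2
  refine ⟨N, fun n hn M _ _ => ?_⟩
  have hQb : IsGalois ℚ Qb := gal_Qb
  let M' : IntermediateField ℚ Qb := normalClosure ℚ M Qb
  have hM'n : Normal ℚ M' := normalClosure.normal ℚ M Qb
  have hM'f : FiniteDimensional ℚ M' := normalClosure.is_finiteDimensional ℚ M Qb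
  have hM' : Pool.Agent.H451R6.FG M' := ⟨hM'f, ⟨⟩⟩
  obtain ⟨q, T, hq1, hq2, hT, hTN, hTR, hTP⟩ := main (fun i => Wr (t i).2 (n i))
    (fun i => (hN i (n i) (hn i)).2) M' hM'
  have hn0 : ∀ i, 0 < n i := fun i => by
    have := (hN i (n i) (hn i)).1
    omega
  obtain ⟨F, hF, e, he, hdis, hreal⟩ := fields_of q hq1 M' hM' hq2
    (fun i => Equiv.Perm (Fin (n i))) (fun i => SemidirectProduct.rightHom)
    (fun i => SemidirectProduct.rightHom_surjective) (fun i => (t i).2)
    (fun i => coord (t i).2 (n i) ⟨0, hn0 i⟩) (fun i => coord_surjective _ _ _)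
  have hFT : ∀ (J : Type) (s : J → ℕ) (hs : Function.Injective s) (F' : IntermediateField F Qb),
      (∀ x ∈ F', ∀ σ : Gal(Qb/ℚ), (∀ i, q i σ = 1) → σ x = x) → ∀ x ∈ F', x ∈ T :=
    fun J s hs F' h x hx => hT x (h x hx)
  obtain ⟨F₀, -, -, hF₀⟩ := hreal Empty Empty.elim (fun a => a.elim)
  have hFT : ∀ x : F, algebraMap F Qb x ∈ T := fun x =>
    hT _ (hF₀ _ (F₀.algebraMap_mem x))
  refine ⟨F, inferInstance, inferInstance, hF, e, he,
    ⟨northcott_of_embed T hTN F (algebraMap F Qb) hFT, real_of_embed T hTR F (algebraMap F Qb) hFT,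
      local_of_embed T hTP F (algebraMap F Qb) hFT⟩, fun E hE => ?_, fun ι _ H _ _ => ?_⟩
  · have h1 : (IntermediateField.lift E) ≤ F ⊓ M' := by
      refine le_inf (IntermediateField.lift_le E) (le_nc (M := M) _ ?_)
      obtain ⟨φ⟩ := hE
      exact ⟨φ.comp (IntermediateField.liftAlgEquiv E).symm.toAlgHom⟩
    rw [hdis, le_bot_iff] at h1
    rw [eq_bot_iff]
    intro x hx
    have h2 : (x : Qb) ∈ IntermediateField.lift E := (IntermediateField.mem_lift x).2 hx
    rw [h1, IntermediateField.mem_bot] at h2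
    obtain ⟨y, hy⟩ := h2
    rw [IntermediateField.mem_bot]
    exact ⟨y, Subtype.ext hy⟩
  · obtain ⟨s, hs, hsH⟩ := ht ι H
    obtain ⟨F', hF', ⟨e'⟩, hF'T⟩ := hreal ι s hs
    have hj : ∀ x : F', algebraMap F' Qb x ∈ T := fun x => hT _ (hF'T _ x.2)
    exact ⟨F', inferInstance, inferInstance, inferInstance, hF',
      ⟨(MulEquiv.piCongrRight fun j => Classical.choice (hsH j)).trans e'⟩,
      northcott_of_embed T hTN F' (algebraMap F' Qb) hj,
      real_of_embed T hTR F' (algebraMap F' Qb) hj, local_of_embed T hTP F' (algebraMap F' Qb) hj⟩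

end Pool.Agent.X285.NC
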